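import Pool.Agent.helper68.SF.SpecW

/-!
# sw:BCH  the sum does not depend on the base point
-/

set_option autoImplicit false

namespace SF

open Pool.Agent.helper72.Sq
open scoped ContDiff

theorem BCH_sign_div (a c : ℝ) (hc : 0 < c) : Real.sign (a / c) = Real.sign a := by
  rcases lt_trichotomy a 0 with h | h | h
  · rw [Real.sign_of_neg h, Real.sign_of_neg (div_neg_of_neg_of_pos h hc)]
  · subst h
    simp
  · rw [Real.sign_of_pos h, Real.sign_of_pos (div_pos h hc)]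

theorem BCH_chi {m : ℤ} (h : chi m ≠ 0) : IsCoprime (5 : ℤ) m := by
  have h5 : Prime (5 : ℤ) := Int.prime_iff_natAbs_prime.2 (by norm_num)
  rw [h5.coprime_iff_not_dvd]
  intro hd
  apply h
  have : m % 5 = 0 := Int.emod_eq_zero_of_dvd hd
  simp [chi, this]

/-- primitivity of the partner -/
theorem BCH_prim {v : ℤ × ℤ} (hv : dt (cpl v) v = 1) {m : ℤ} (hm : chi m ≠ 0) :
    (5 : ℤ) • cpl v + m • v ∈ Pv ∧ m • v - (5 : ℤ) • cpl v ∈ Pv := by
  obtain ⟨a, b, hab⟩ := BCH_chi hm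
  unfold dt at hv
  constructor
  · show Int.gcd _ _ = 1
    rw [← Int.isCoprime_iff_gcd_eq_one]
    refine ⟨a * v.2 - b * (cpl v).2, -(a * v.1) + b * (cpl v).1, ?_⟩
    simp only [Prod.fst_add, Prod.snd_add, Prod.smul_fst, Prod.smul_snd, smul_eq_mul]
    linear_combination hab + (5 * a + b * m) * hv
  · show Int.gcd _ _ = 1
    rw [← Int.isCoprime_iff_gcd_eq_one]
    refine ⟨-(a * v.2) - b * (cpl v).2, a * v.1 + b * (cpl v).1, ?_⟩
    simp only [Prod.fst_sub, Prod.snd_sub, Prod.smul_fst, Prod.smul_snd, smul_eq_mul]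
    linear_combination hab + (5 * a + b * m) * hv

theorem BCH_dt {v : ℤ × ℤ} (hv : dt (cpl v) v = 1) (m : ℤ) :
    dt ((5 : ℤ) • cpl v + m • v) v = 5 ∧ dt v (m • v - (5 : ℤ) • cpl v) = 5 := by
  unfold dt at *
  simp only [Prod.fst_add, Prod.snd_add, Prod.fst_sub, Prod.snd_sub, Prod.smul_fst, Prod.smul_snd,
    smul_eq_mul]
  constructor <;> linear_combination 5 * hv

theorem BCH_ip (v : ℤ × ℤ) (m : ℤ) (x y : ℝ) :
    ip ((5 : ℤ) • cpl v + (-m) • v) v x y = -ip v (m • v - (5 : ℤ) • cpl v) x y := by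
  unfold ip
  simp only [Prod.fst_add, Prod.snd_add, Prod.fst_sub, Prod.snd_sub, Prod.smul_fst, Prod.smul_snd,
    smul_eq_mul]
  push_cast
  ring

/-- the function of a pair -/
noncomputable def BCH_H (g : ℝ → ℝ) (x1 y1 s x y : ℝ) (u P : ℤ × ℤ) : ℝ :=
  1 / 2 * (Real.sign (ip u P x1 y1) - Real.sign (ip u P 0 1)) * b0 g s (YY u x y)

theorem BCH_fin (hMG : MG_stmt) (hSCH : SCH_stmt) (hFV : FV_stmt) {g : ℝ → ℝ} (hg : Prof g)
    {x1 y1 s x y : ℝ} (hy1 : 0 < y1) (hy : 0 < y) {T : ℝ} (hT : 0 < T) (hz : Bx T x y)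
    (hz1 : Bx T x1 y1) (hi : Bx T 0 1) :
    {p : (ℤ × ℤ) × (ℤ × ℤ) | dt p.1 p.2 = 5 ∧ p.1 ∈ Pv ∧ p.2 ∈ Pv ∧
      BCH_H g x1 y1 s x y p.1 p.2 ≠ 0}.Finite := by
  obtain ⟨-, -, hpos, -, hY, -⟩ := hMG
  obtain ⟨C, hC⟩ := hSCH T hT
  have hU := hFV T (Real.exp (2 * s) * y) hT
  have hfin : (⋃ u ∈ {v : ℤ × ℤ | ∃ x' y' : ℝ, Bx T x' y' ∧ ip v v x' y' ≤ Real.exp (2 * s) * y},
      (Prod.mk u) '' {v : ℤ × ℤ | ∃ x' y' : ℝ, Bx T x' y' ∧
        ip v v x' y' ≤ C * 5 ^ 2 / ip u u x1 y1}).Finite :=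
    hU.biUnion fun u _ => (hFV T _ hT).image _
  refine hfin.subset ?_
  rintro ⟨u, P⟩ ⟨h1, h2, h3, h4⟩
  have h4' : BCH_H g x1 y1 s x y u P ≠ 0 := h4
  unfold BCH_H at h4'
  have hb : b0 g s (YY u x y) ≠ 0 := right_ne_zero_of_mul h4'
  have hs : Real.sign (ip u P x1 y1) ≠ Real.sign (ip u P 0 1) := fun h => h4' (by rw [h]; ring)
  have hu0 := hpos u h2 x y hy
  have hu1 := hpos u h2 x1 y1 hy1
  have hlt : 1 < Real.exp (2 * s) * YY u x y := by
    by_contra hcon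
    exact hb (by unfold b0; rw [hg.lo _ (not_lt.1 hcon), mul_zero])
  rw [hY u h2 x y hy, ← mul_div_assoc, one_lt_div hu0] at hlt
  simp only [Set.mem_iUnion, Set.mem_image, Set.mem_ofPred_eq]
  refine ⟨u, ⟨x, y, hz, hlt.le⟩, P, ⟨x1, y1, hz1, ?_⟩, rfl⟩
  have h5 := hC u P x1 y1 0 1 hz1 hi hs
  have h6 : dt u P = 5 := h1
  rw [h6] at h5
  push_cast at h5
  rw [le_div_iff₀ hu1]
  linarith

theorem BCH (hPJ : PJ_stmt) (hRJ : RJ_stmt) (hPAIR : PAIR_stmt) (hMG : MG_stmt) (hMH : MH_stmt)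
    (hSCH : SCH_stmt) (hFV : FV_stmt) (hLF : LF_stmt) : BCH_stmt := by
  intro g hg x1 y1 s x y hy1 hy
  set T : ℝ := 1 + |x| + y + 1 / y + |x1| + y1 + 1 / y1 with hTdef
  have hx0 := abs_nonneg x
  have hx10 := abs_nonneg x1
  have hiy : 0 < 1 / y := by positivity
  have hiy1 : 0 < 1 / y1 := by positivity
  have hT : 0 < T := by positivity
  have hz : Bx T x y := ⟨by linarith, by
    rw [one_div_le hT hy]
    linarith, by linarith⟩
  have hz1 : Bx T x1 y1 := ⟨by linarith, by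
    rw [one_div_le hT hy1]
    linarith, by linarith⟩
  have hi : Bx T 0 1 := ⟨by rw [abs_zero]; linarith, by
    rw [one_div_le hT one_pos]
    linarith, by linarith⟩
  have hE := BCH_fin hMG hSCH hFV hg (s := s) hy1 hy hT hz hz1 hi
  set H := BCH_H g x1 y1 s x y with hH
  have hpair := hPAIR H hE
  obtain ⟨hdt, -, hpos, hX, -, -⟩ := hMG
  -- the supports
  have hL : (Pv ∩ Function.support fun v => ∑ᶠ m : ℤ, chi m * H v (m • v - (5 : ℤ) • cpl v)).Finite := by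
    refine (hE.image Prod.fst).subset ?_
    rintro v ⟨hv, hne⟩
    obtain ⟨m, hm⟩ : ∃ m : ℤ, chi m * H v (m • v - (5 : ℤ) • cpl v) ≠ 0 := by
      by_contra hcon
      push Not at hcon
      exact Function.mem_support.1 hne (finsum_eq_zero_of_forall_eq_zero hcon)
    have hm1 := left_ne_zero_of_mul hm
    have hm2 := right_ne_zero_of_mul hm
    exact ⟨(v, m • v - (5 : ℤ) • cpl v), ⟨(BCH_dt (hdt v hv) m).2, hv, (BCH_prim (hdt v hv) hm1).2, hm2⟩,
      rfl⟩
  have hR : (Pv ∩ Function.support fun v => ∑ᶠ m : ℤ, chi m * H ((5 : ℤ) • cpl v + m • v) v).Finite := by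
    refine (hE.image Prod.snd).subset ?_
    rintro v ⟨hv, hne⟩
    obtain ⟨m, hm⟩ : ∃ m : ℤ, chi m * H ((5 : ℤ) • cpl v + m • v) v ≠ 0 := by
      by_contra hcon
      push Not at hcon
      exact Function.mem_support.1 hne (finsum_eq_zero_of_forall_eq_zero hcon)
    have hm1 := left_ne_zero_of_mul hm
    have hm2 := right_ne_zero_of_mul hm
    exact ⟨((5 : ℤ) • cpl v + m • v, v), ⟨(BCH_dt (hdt v hv) m).1, (BCH_prim (hdt v hv) hm1).1, hv, hm2⟩,
      rfl⟩
  have hF : ∀ x' y' : ℝ, 0 < y' →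
      (Pv ∩ Function.support fun v => FB g v x' y' s x y).Finite := by
    intro x' y' hy'
    refine (hLF g hg x' y' (|s| + 1) T hy' (by positivity) hT).subset ?_
    rintro v ⟨hv, hne⟩
    exact ⟨hv, s, x, y, by linarith, hz.1, hz.2.1, hz.2.2, hne⟩
  -- the identity for one vector
  have key : ∀ v ∈ Pv, FB g v x1 y1 s x y + ∑ᶠ m : ℤ, chi m * H v (m • v - (5 : ℤ) • cpl v) =
      FB g v 0 1 s x y + ∑ᶠ m : ℤ, chi m * H ((5 : ℤ) • cpl v + m • v) v := by
    intro v hv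
    have hYv : 0 < YY v x y := by
      unfold YY Yr
      have h1 := hpos v hv x y hy
      have h2 : ip v v x y = ((v.1 : ℝ) * x + v.2) ^ 2 + (v.1 * y) ^ 2 := by
        unfold ip
        ring
      rw [← h2]
      positivity
    obtain ⟨-, hj⟩ := hPJ.2.2.2 (XX v 0 1) (XX v x1 y1)
    obtain ⟨-, hr⟩ := hRJ g hg s (XX v x y) (YY v x y) (XX v 0 1) (XX v x1 y1) hYv
    have hip1 := hpos v hv x1 y1 hy1
    have hip0 := hpos v hv 0 1 one_pos
    have e1 : ∀ m : ℤ, chi m * (1 / 2 * (Real.sign (XX v x1 y1 - m / 5) -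
        Real.sign (XX v 0 1 - m / 5))) * b0 g s (YY v x y) =
        -(chi m * H v (m • v - (5 : ℤ) • cpl v)) := by
      intro m
      have a1 : ∀ x' y' : ℝ, 0 < y' → 0 < ip v v x' y' → Real.sign (XX v x' y' - m / 5) =
          -Real.sign (ip v (m • v - (5 : ℤ) • cpl v) x' y') := by
        intro x' y' hy' hp
        have h := hX v hv x' y' hy' (-m)
        rw [BCH_ip] at h
        have h2 : XX v x' y' - m / 5 = -ip v (m • v - (5 : ℤ) • cpl v) x' y' / (5 * ip v v x' y') := by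
          rw [← h]
          push_cast
          ring
        rw [h2, BCH_sign_div _ _ (by positivity), Real.sign_neg]
      rw [a1 x1 y1 hy1 hip1, a1 0 1 one_pos hip0, hH]
      unfold BCH_H
      ring
    have e2 : ∀ m : ℤ, chi m * (1 / 2 * (Real.sign (XX v x1 y1 + m / 5) -
        Real.sign (XX v 0 1 + m / 5)) * b1 g s (XX v x y + m / 5) (YY v x y)) =
        chi m * H ((5 : ℤ) • cpl v + m • v) v := by
      intro m
      have a1 : ∀ x' y' : ℝ, 0 < y' → 0 < ip v v x' y' → Real.sign (XX v x' y' + m / 5) =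
          Real.sign (ip ((5 : ℤ) • cpl v + m • v) v x' y') := by
        intro x' y' hy' hp
        rw [hX v hv x' y' hy' m, BCH_sign_div _ _ (by positivity)]
      rw [a1 x1 y1 hy1 hip1, a1 0 1 one_pos hip0, hMH g hg v hv m s x y hy, hH]
      rfl
    have s1 : (psi (XX v x1 y1) - psi (XX v 0 1)) * b0 g s (YY v x y) =
        -∑ᶠ m : ℤ, chi m * H v (m • v - (5 : ℤ) • cpl v) := by
      rw [hj, finsum_mul, ← finsum_neg_distrib]
      exact finsum_congr e1
    have s2 : RR g s (XX v x y) (YY v x y) (XX v x1 y1) - RR g s (XX v x y) (YY v x y) (XX v 0 1) =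
        ∑ᶠ m : ℤ, chi m * H ((5 : ℤ) • cpl v + m • v) v := by
      rw [hr]
      exact finsum_congr e2
    unfold FB
    linarith
  have h1 := finsum_mem_congr (s := Pv) rfl key
  rw [finsum_mem_add_distrib' (hF x1 y1 hy1) hL, finsum_mem_add_distrib' (hF 0 1 one_pos) hR, hpair] at h1
  exact add_right_cancel h1

end SF
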